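import Mathlib

set_option autoImplicit false

open MeasureTheory

namespace Pool.Agent.W757.SF

/-- The Euclidean plane. -/
abbrev E := EuclideanSpace ℝ (Fin 2)

/-- The overdetermined problem (S) has a nontrivial solution on `Ω` with the eigenvalue `lam`:
there are a constant `c` and a function `u` with weak gradient `G` on `Ω` such that
`u - c`, extended by zero, is a Sobolev function on the whole plane with gradient `G` (the trace
of `u` is `c`) and `- Δ u = lam * u` with zero Neumann data, both in the weak sense, and `u` does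
not vanish almost everywhere.  These are word for word the conditions of the frozen statement. -/
def Solvable (Ω : Set E) (lam : ℝ) : Prop :=
  ∃ (c : ℝ) (u : E → ℝ) (G : E → E),
      MemLp u 2 (volume.restrict Ω) ∧
      MemLp G 2 (volume.restrict Ω) ∧
      (∀ φ : E → ℝ, ContDiff ℝ 1 φ → HasCompactSupport φ → ∀ v : E,
          ∫ x in Ω, (u x - c) * (fderiv ℝ φ x v)
            = - ∫ x in Ω, @inner ℝ E _ (G x) v * φ x) ∧
      (∀ φ : E → ℝ, ContDiff ℝ 1 φ → HasCompactSupport φ →
          ∫ x in Ω, fderiv ℝ φ x (G x) = lam * ∫ x in Ω, u x * φ x) ∧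
      ¬ (u =ᵐ[volume.restrict Ω] 0)

/-- The Gram matrix (entries 11, 22, 12) of `A`, multiplied by `lam`. -/
noncomputable def gram (A : E ≃L[ℝ] E) (lam : ℝ) : ℝ × ℝ × ℝ :=
  (lam * ‖A (EuclideanSpace.single 0 1)‖ ^ 2, lam * ‖A (EuclideanSpace.single 1 1)‖ ^ 2,
    lam * @inner ℝ E _ (A (EuclideanSpace.single 0 1)) (A (EuclideanSpace.single 1 1)))

/-- The matrices `lam * AᵀA` (entries 11, 22, 12) for which (S) is solvable on the image of `Ω`
under `A` with the eigenvalue `lam`, of size at most `R ^ 2`. -/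
def exceptional (Ω : Set E) (R : ℝ) : Set (ℝ × ℝ × ℝ) :=
  {N | ∃ (A : E ≃L[ℝ] E) (lam : ℝ), 0 < lam ∧ lam * ‖(A : E →L[ℝ] E)‖ ^ 2 ≤ R ^ 2 ∧
    Solvable (A '' Ω) lam ∧ gram A lam = N}

/-- The shape of `A`: the Gram matrix up to a positive factor. Two linear bijections have the same
shape exactly when they differ by a similarity of the target plane. -/
noncomputable def shape (A : E ≃L[ℝ] E) : ℝ × ℝ :=
  (‖A (EuclideanSpace.single 1 1)‖ ^ 2 / ‖A (EuclideanSpace.single 0 1)‖ ^ 2,
    @inner ℝ E _ (A (EuclideanSpace.single 0 1)) (A (EuclideanSpace.single 1 1))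
      / ‖A (EuclideanSpace.single 0 1)‖ ^ 2)

/-- The nonlinear shear `x ↦ x + t h(⟨x, e⟩) f`. -/
noncomputable def shear (e f : E) (h : ℝ → ℝ) (t : ℝ) (x : E) : E :=
  x + (t * h (@inner ℝ E _ x e)) • f

end Pool.Agent.W757.SF
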