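import Mathlib
import Pool.Agent.W757.SF.Defs

set_option autoImplicit false

open MeasureTheory

namespace Pool.Agent.W757.SF

/-- exponential integrals are entire -/
theorem ent_differentiable (μ : Measure E) [IsFiniteMeasure μ] (k : E → ℝ) (w : E → ℂ)
    (hk : AEStronglyMeasurable k μ) (M : ℝ) (hM : ∀ᵐ x ∂μ, |k x| ≤ M) (hw : Integrable w μ) :
    Differentiable ℂ (fun z : ℂ => ∫ x, Complex.exp (z * (k x : ℂ) * Complex.I) * w x ∂μ) := by
  intro z₀
  have hkc : AEStronglyMeasurable (fun x => (k x : ℂ)) μ :=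
    Complex.continuous_ofReal.comp_aestronglyMeasurable hk
  have hmeas : ∀ z : ℂ, AEStronglyMeasurable
      (fun x => Complex.exp (z * (k x : ℂ) * Complex.I) * w x) μ := by
    intro z
    refine (Complex.continuous_exp.comp_aestronglyMeasurable ?_).mul hw.1
    exact (hkc.const_mul z).mul_const _
  have hbnd : ∀ z : ℂ, ∀ᵐ x ∂μ, ‖Complex.exp (z * (k x : ℂ) * Complex.I)‖
      ≤ Real.exp (‖z‖ * M) := by
    intro z
    filter_upwards [hM] with x hx
    rw [Complex.norm_exp]
    apply Real.exp_le_exp.mpr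
    have h1 : (z * (k x : ℂ) * Complex.I).re = -(z.im * k x) := by
      simp [Complex.mul_re, Complex.mul_im]
    rw [h1]
    calc -(z.im * k x) ≤ |z.im * k x| := neg_le_abs _
      _ = |z.im| * |k x| := abs_mul _ _
      _ ≤ ‖z‖ * M := mul_le_mul (Complex.abs_im_le_norm z) hx (abs_nonneg _) (norm_nonneg _)
  refine (hasDerivAt_integral_of_dominated_loc_of_deriv_le (s := Metric.ball z₀ 1)
    (F' := fun z x => (k x : ℂ) * Complex.I * (Complex.exp (z * (k x : ℂ) * Complex.I) * w x))
    (bound := fun x => |M| * (Real.exp ((‖z₀‖ + 1) * |M|)) * ‖w x‖)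
    (Metric.ball_mem_nhds _ one_pos) (Filter.Eventually.of_forall hmeas) ?_ ?_ ?_ ?_ ?_).2
    |>.differentiableAt
  · refine hw.bdd_mul (c := Real.exp (‖z₀‖ * M)) ?_ (hbnd z₀)
    exact Complex.continuous_exp.comp_aestronglyMeasurable ((hkc.const_mul z₀).mul_const _)
  · exact (hkc.mul_const _).mul (hmeas z₀)
  · filter_upwards [hM] with x hx z hz
    have hz1 : ‖z‖ ≤ ‖z₀‖ + 1 := by
      have := norm_sub_norm_le z z₀
      rw [Metric.mem_ball, dist_eq_norm] at hz
      linarith
    rw [norm_mul, norm_mul, norm_mul, Complex.norm_I, mul_one, Complex.norm_real,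
      Real.norm_eq_abs, Complex.norm_exp]
    have h1 : (z * (k x : ℂ) * Complex.I).re = -(z.im * k x) := by
      simp [Complex.mul_re, Complex.mul_im]
    rw [h1]
    have hxM : |k x| ≤ |M| := hx.trans (le_abs_self M)
    have h2 : Real.exp (-(z.im * k x)) ≤ Real.exp ((‖z₀‖ + 1) * |M|) := by
      apply Real.exp_le_exp.mpr
      calc -(z.im * k x) ≤ |z.im * k x| := neg_le_abs _
        _ = |z.im| * |k x| := abs_mul _ _
        _ ≤ (‖z₀‖ + 1) * |M| := mul_le_mul ((Complex.abs_im_le_norm z).trans hz1) hxM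
            (abs_nonneg _) (by positivity)
    calc |k x| * (Real.exp (-(z.im * k x)) * ‖w x‖)
        ≤ |M| * (Real.exp ((‖z₀‖ + 1) * |M|) * ‖w x‖) := by
          apply mul_le_mul hxM _ (by positivity) (abs_nonneg _)
          exact mul_le_mul_of_nonneg_right h2 (norm_nonneg _)
      _ = |M| * Real.exp ((‖z₀‖ + 1) * |M|) * ‖w x‖ := by ring
  · exact hw.norm.const_mul _
  · refine Filter.Eventually.of_forall fun x z _ => ?_
    have h1 : HasDerivAt (fun z : ℂ => z * (k x : ℂ) * Complex.I)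
        ((k x : ℂ) * Complex.I) z := by
      have := ((hasDerivAt_id z).mul_const (k x : ℂ)).mul_const Complex.I
      simpa using this
    have h2 := (h1.cexp).mul_const (w x)
    refine h2.congr_deriv ?_
    ring

/-- zero counting -/
theorem zero_count (S : Finset ℂ) : ∀ (f : ℂ → ℂ) (R C : ℝ), Differentiable ℂ f → 0 < R →
    f 0 ≠ 0 → (∀ a ∈ S, f a = 0) → (∀ a ∈ S, ‖a‖ ≤ R) →
    (∀ z : ℂ, ‖z‖ = 5 * R → ‖f z‖ ≤ C) → 4 ^ S.card * ‖f 0‖ ≤ C := by
  induction S using Finset.induction_on with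
  | empty =>
    intro f R C hf hR h0 _ _ hC
    rw [Finset.card_empty, pow_zero, one_mul]
    refine Complex.norm_le_of_forall_mem_frontier_norm_le (U := Metric.ball 0 (5 * R))
      Metric.isBounded_ball hf.diffContOnCl ?_ (subset_closure ?_)
    · intro z hz
      rw [frontier_ball _ (by positivity)] at hz
      exact hC z (by simpa using hz)
    · rw [Metric.mem_ball, dist_self]; positivity
  | insert a S ha ih =>
    intro f R C hf hR h0 hz hn hC
    have hfa : f a = 0 := hz a (Finset.mem_insert_self _ _)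
    have hna : ‖a‖ ≤ R := hn a (Finset.mem_insert_self _ _)
    have hg : Differentiable ℂ (dslope f a) := by
      have := (Complex.differentiableOn_dslope (f := f) (s := Set.univ) (c := a)
        Filter.univ_mem).mpr hf.differentiableOn
      exact differentiableOn_univ.mp this
    have hrel : ∀ z, (z - a) * dslope f a z = f z := by
      intro z
      have := sub_smul_dslope f a z
      rw [hfa, sub_zero, smul_eq_mul] at this
      exact this
    have hC0 : 0 ≤ C := by
      have h1 : ‖((5 * R : ℝ) : ℂ)‖ = 5 * R := by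
        rw [Complex.norm_real, Real.norm_eq_abs, abs_of_pos (by positivity)]
      exact (norm_nonneg _).trans (hC _ h1)
    have hg0 : dslope f a 0 ≠ 0 := by
      intro h
      have := hrel 0
      rw [h, mul_zero] at this
      exact h0 this.symm
    have key := ih (dslope f a) R (C / (4 * R)) hg hR hg0 ?_ ?_ ?_
    · have e0 : ‖f 0‖ = ‖a‖ * ‖dslope f a 0‖ := by
        rw [← hrel 0, norm_mul, zero_sub, norm_neg]
      rw [Finset.card_insert_of_notMem ha, e0, pow_succ]
      have h4 : (0:ℝ) < 4 * R := by positivity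
      rw [le_div_iff₀ h4] at key
      calc 4 ^ S.card * 4 * (‖a‖ * ‖dslope f a 0‖)
          ≤ 4 ^ S.card * 4 * (R * ‖dslope f a 0‖) := by
            apply mul_le_mul_of_nonneg_left _ (by positivity)
            exact mul_le_mul_of_nonneg_right hna (norm_nonneg _)
        _ = 4 ^ S.card * ‖dslope f a 0‖ * (4 * R) := by ring
        _ ≤ C := key
    · intro b hb
      have hba : b ≠ a := fun h => ha (h ▸ hb)
      have := hrel b
      rw [hz b (Finset.mem_insert_of_mem hb)] at this
      exact (mul_eq_zero.mp this).resolve_left (sub_ne_zero.mpr hba)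
    · intro b hb; exact hn b (Finset.mem_insert_of_mem hb)
    · intro z hz5
      have h1 : 4 * R ≤ ‖z - a‖ := by
        have := norm_sub_norm_le z a
        rw [hz5] at this
        linarith
      have h2 : ‖z - a‖ * ‖dslope f a z‖ ≤ C := by
        rw [← norm_mul, hrel z]; exact hC z hz5
      rw [le_div_iff₀ (by positivity : (0:ℝ) < 4 * R)]
      calc ‖dslope f a z‖ * (4 * R) ≤ ‖dslope f a z‖ * ‖z - a‖ :=
            mul_le_mul_of_nonneg_left h1 (norm_nonneg _)
        _ = ‖z - a‖ * ‖dslope f a z‖ := mul_comm _ _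
        _ ≤ C := h2

/-- the real zeros of an entire function that does not vanish identically are countable -/
theorem countable_real_zeros (f : ℂ → ℂ) (hf : Differentiable ℂ f) (z₀ : ℂ) (h0 : f z₀ ≠ 0) :
    {t : ℝ | f (t : ℂ) = 0}.Countable := by
  -- finitely many zeros in every disc around z₀
  have hfin : ∀ n : ℕ, {z : ℂ | f (z₀ + z) = 0 ∧ ‖z‖ ≤ (n : ℝ) + 1}.Finite := by
    intro n
    by_contra hinf
    have hinf' : {z : ℂ | f (z₀ + z) = 0 ∧ ‖z‖ ≤ (n : ℝ) + 1}.Infinite := hinf
    have hg : Differentiable ℂ (fun z => f (z₀ + z)) :=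
      hf.comp (differentiable_id.const_add z₀)
    obtain ⟨C, hC⟩ : ∃ C : ℝ, ∀ z : ℂ, ‖z‖ = 5 * ((n : ℝ) + 1) → ‖f (z₀ + z)‖ ≤ C := by
      obtain ⟨C, hC⟩ := (isCompact_sphere (0 : ℂ) (5 * ((n : ℝ) + 1))).exists_bound_of_continuousOn
        hg.continuous.continuousOn
      exact ⟨C, fun z hz => hC z (by simpa using hz)⟩
    have hpos : 0 < ‖f z₀‖ := norm_pos_iff.mpr h0
    obtain ⟨m, hm⟩ := pow_unbounded_of_one_lt (C / ‖f z₀‖) (by norm_num : (1 : ℝ) < 4)
    obtain ⟨S, hS, hSc⟩ := hinf'.exists_subset_card_eq m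
    have := zero_count S (fun z => f (z₀ + z)) ((n : ℝ) + 1) C hg (by positivity)
      (by simpa using h0) (fun a ha => (hS ha).1) (fun a ha => (hS ha).2) hC
    rw [hSc, add_zero] at this
    rw [div_lt_iff₀ hpos] at hm
    linarith
  have hcover : {t : ℝ | f (t : ℂ) = 0} ⊆ ⋃ n : ℕ, (fun t : ℝ => (t : ℂ) - z₀) ⁻¹'
      {z : ℂ | f (z₀ + z) = 0 ∧ ‖z‖ ≤ (n : ℝ) + 1} := by
    intro t ht
    obtain ⟨n, hn⟩ := exists_nat_ge ‖(t : ℂ) - z₀‖
    refine Set.mem_iUnion.mpr ⟨n, ?_, ?_⟩
    · show f (z₀ + ((t : ℂ) - z₀)) = 0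
      rw [add_sub_cancel]; exact ht
    · show ‖(t : ℂ) - z₀‖ ≤ (n : ℝ) + 1
      linarith
  refine (Set.countable_iUnion fun n => ?_).mono hcover
  refine ((hfin n).preimage ?_).countable
  intro a _ b _ hab
  have : (a : ℂ) = (b : ℂ) := by simpa using hab
  exact_mod_cast this

end Pool.Agent.W757.SF
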