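import Mathlib
import Pool.Agent.W757.SF.Ent

set_option autoImplicit false

open MeasureTheory

namespace Pool.Agent.W757.SF

/-- positive zeros of the Fourier transform of `Ω` on the ray spanned by `v`, up to `R` -/
def rayZeros (Ω : Set E) (v : E) (R : ℝ) : Set ℝ :=
  {s : ℝ | 0 < s ∧ s ≤ R ∧ ∫ x in Ω, Complex.exp (((s * @inner ℝ E _ v x : ℝ) : ℂ) * Complex.I) = 0}

theorem rayZeros_card {Ω : Set E} (ho : IsOpen Ω) (hne : Ω.Nonempty) (a : E) (ρ : ℝ)
    (hρ : Ω ⊆ Metric.closedBall a ρ) (v : E) (hv : ‖v‖ ≤ 1) (R : ℝ) (hR : 0 < R)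
    (T : Finset ℝ) (hT : ∀ s ∈ T, s ∈ rayZeros Ω v R) : (T.card : ℝ) ≤ 2 * ρ * R := by
  have hb : Bornology.IsBounded Ω := Metric.isBounded_closedBall.subset hρ
  have hm : MeasurableSet Ω := ho.measurableSet
  have hfin : IsFiniteMeasure (volume.restrict Ω) := by
    constructor
    rw [Measure.restrict_apply_univ]
    exact hb.measure_lt_top
  have hρ0 : 0 ≤ ρ := by
    obtain ⟨x, hx⟩ := hne
    exact dist_nonneg.trans (hρ hx)
  set V : ℝ := (volume.restrict Ω).real Set.univ with hV
  have hVpos : 0 < V := by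
    rw [hV, measureReal_def, Measure.restrict_apply_univ]
    exact ENNReal.toReal_pos (ho.measure_pos volume hne).ne' hb.measure_lt_top.ne
  set k : E → ℝ := fun x => @inner ℝ E _ v (x - a) with hk
  have hkc : Continuous k := continuous_const.inner (continuous_id.sub continuous_const)
  have hkb : ∀ᵐ x ∂(volume.restrict Ω), |k x| ≤ ρ := by
    refine (ae_restrict_iff' hm).mpr (Filter.Eventually.of_forall fun x hx => ?_)
    have h1 : |k x| ≤ ‖v‖ * ‖x - a‖ := abs_real_inner_le_norm _ _
    have h2 : ‖x - a‖ ≤ ρ := by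
      have := hρ hx
      rwa [Metric.mem_closedBall, dist_eq_norm] at this
    calc |k x| ≤ ‖v‖ * ‖x - a‖ := h1
      _ ≤ 1 * ρ := mul_le_mul hv h2 (norm_nonneg _) zero_le_one
      _ = ρ := one_mul _
  set f : ℂ → ℂ := fun z => ∫ x in Ω, Complex.exp (z * (k x : ℂ) * Complex.I) * (1 : ℂ) with hf
  have hfd : Differentiable ℂ f :=
    ent_differentiable (volume.restrict Ω) k (fun _ => 1) hkc.aestronglyMeasurable ρ hkb
      (integrable_const 1)
  have hf0 : f 0 = (V : ℂ) := by
    simp only [hf, zero_mul, Complex.exp_zero, mul_one]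
    rw [integral_const, hV]
    simp
  have hfn : ∀ z : ℂ, ‖f z‖ ≤ V * Real.exp (‖z‖ * ρ) := by
    intro z
    have h1 : ∀ᵐ x ∂(volume.restrict Ω),
        ‖Complex.exp (z * (k x : ℂ) * Complex.I) * (1 : ℂ)‖ ≤ Real.exp (‖z‖ * ρ) := by
      filter_upwards [hkb] with x hx
      rw [mul_one, Complex.norm_exp]
      apply Real.exp_le_exp.mpr
      have h1 : (z * (k x : ℂ) * Complex.I).re = -(z.im * k x) := by
        simp [Complex.mul_re, Complex.mul_im]
      rw [h1]
      calc -(z.im * k x) ≤ |z.im * k x| := neg_le_abs _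
        _ = |z.im| * |k x| := abs_mul _ _
        _ ≤ ‖z‖ * ρ := mul_le_mul (Complex.abs_im_le_norm z) hx (abs_nonneg _) (norm_nonneg _)
    have := norm_integral_le_of_norm_le_const h1
    calc ‖f z‖ ≤ Real.exp (‖z‖ * ρ) * (volume.restrict Ω).real Set.univ := this
      _ = V * Real.exp (‖z‖ * ρ) := mul_comm _ _
  -- zeros
  have hz1 : ∀ s ∈ T, f (s : ℂ) = 0 := by
    intro s hs
    have h := (hT s hs).2.2
    have e : ∀ x, Complex.exp ((s : ℂ) * (k x : ℂ) * Complex.I) * (1 : ℂ)
        = Complex.exp (((s * @inner ℝ E _ v x : ℝ) : ℂ) * Complex.I)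
          * Complex.exp (-((s * @inner ℝ E _ v a : ℝ) : ℂ) * Complex.I) := by
      intro x
      rw [mul_one, ← Complex.exp_add]
      congr 1
      simp only [hk, inner_sub_right]
      push_cast
      ring
    simp only [hf]
    simp_rw [e]
    rw [integral_mul_const, h, zero_mul]
  have hz2 : ∀ s ∈ T, f (-(s : ℂ)) = 0 := by
    intro s hs
    have h := hz1 s hs
    have hconj : f (-(s : ℂ)) = (starRingEnd ℂ) (f (s : ℂ)) := by
      simp only [hf]
      rw [← integral_conj]
      refine integral_congr_ae (Filter.Eventually.of_forall fun x => ?_)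
      beta_reduce
      rw [mul_one, mul_one, ← Complex.exp_conj]
      congr 1
      simp
    rw [hconj, h, map_zero]
  have hTpos : ∀ s ∈ T, 0 < s := fun s hs => (hT s hs).1
  have hTR : ∀ s ∈ T, s ≤ R := fun s hs => (hT s hs).2.1
  set S : Finset ℂ := T.image (fun s : ℝ => (s : ℂ)) ∪ T.image (fun s : ℝ => -(s : ℂ)) with hS
  have hinj1 : Function.Injective (fun s : ℝ => (s : ℂ)) := Complex.ofReal_injective
  have hinj2 : Function.Injective (fun s : ℝ => -(s : ℂ)) := neg_injective.comp hinj1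
  have hdisj : Disjoint (T.image (fun s : ℝ => (s : ℂ))) (T.image (fun s : ℝ => -(s : ℂ))) := by
    rw [Finset.disjoint_left]
    intro z hz hz'
    obtain ⟨s, hs, rfl⟩ := Finset.mem_image.mp hz
    obtain ⟨t, ht, hst⟩ := Finset.mem_image.mp hz'
    have : -t = s := by
      have h := hst
      exact_mod_cast h
    have h1 := hTpos s hs
    have h2 := hTpos t ht
    linarith
  have hcard : S.card = 2 * T.card := by
    rw [hS, Finset.card_union_of_disjoint hdisj, Finset.card_image_of_injective _ hinj1,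
      Finset.card_image_of_injective _ hinj2]
    ring
  have key := zero_count S f R (V * Real.exp (5 * R * ρ)) hfd hR
    (by rw [hf0]; exact_mod_cast hVpos.ne') ?_ ?_ ?_
  · rw [hf0, Complex.norm_real, Real.norm_eq_abs, abs_of_pos hVpos, hcard, mul_comm V] at key
    have k2 : (4 : ℝ) ^ (2 * T.card) ≤ Real.exp (5 * R * ρ) := le_of_mul_le_mul_right key hVpos
    have k3 : Real.exp (((2 * T.card : ℕ) : ℝ) * Real.log 4) ≤ Real.exp (5 * R * ρ) := by
      rw [mul_comm, Real.exp_mul, Real.exp_log (by norm_num), Real.rpow_natCast]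
      exact k2
    have k4 := Real.exp_le_exp.mp k3
    have k5 : Real.log 4 = 2 * Real.log 2 := by
      rw [show (4 : ℝ) = 2 ^ 2 by norm_num, Real.log_pow]
      norm_num
    have k6 := Real.log_two_gt_d9
    rw [k5] at k4
    push_cast at k4
    have hc0 : (0 : ℝ) ≤ T.card := Nat.cast_nonneg _
    have k7 : (2.5 : ℝ) * T.card ≤ 5 * R * ρ := by
      calc (2.5 : ℝ) * T.card ≤ (4 * Real.log 2) * T.card :=
            mul_le_mul_of_nonneg_right (by linarith) hc0
        _ = 2 * T.card * (2 * Real.log 2) := by ring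
        _ ≤ 5 * R * ρ := k4
    nlinarith
  · intro z hz
    rcases Finset.mem_union.mp hz with h | h
    · obtain ⟨s, hs, rfl⟩ := Finset.mem_image.mp h
      exact hz1 s hs
    · obtain ⟨s, hs, rfl⟩ := Finset.mem_image.mp h
      exact hz2 s hs
  · intro z hz
    rcases Finset.mem_union.mp hz with h | h
    · obtain ⟨s, hs, rfl⟩ := Finset.mem_image.mp h
      beta_reduce
      rw [Complex.norm_real, Real.norm_eq_abs, abs_of_pos (hTpos s hs)]
      exact hTR s hs
    · obtain ⟨s, hs, rfl⟩ := Finset.mem_image.mp h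
      beta_reduce
      rw [norm_neg, Complex.norm_real, Real.norm_eq_abs, abs_of_pos (hTpos s hs)]
      exact hTR s hs
  · intro z hz
    have := hfn z
    rw [hz] at this
    exact this

theorem rayZeros_finite {Ω : Set E} (ho : IsOpen Ω) (hne : Ω.Nonempty) (a : E) (ρ : ℝ)
    (hρ : Ω ⊆ Metric.closedBall a ρ) (v : E) (hv : ‖v‖ ≤ 1) (R : ℝ) (hR : 0 < R) :
    (rayZeros Ω v R).Finite ∧ ((rayZeros Ω v R).ncard : ℝ) ≤ 2 * ρ * R := by
  have hfin : (rayZeros Ω v R).Finite := by
    by_contra hinf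
    have hinf' : (rayZeros Ω v R).Infinite := hinf
    obtain ⟨m, hm⟩ := exists_nat_gt (2 * ρ * R)
    obtain ⟨S, hS, hSc⟩ := hinf'.exists_subset_card_eq m
    have := rayZeros_card ho hne a ρ hρ v hv R hR S (fun s hs => hS hs)
    rw [hSc] at this
    linarith
  refine ⟨hfin, ?_⟩
  rw [Set.ncard_eq_toFinset_card _ hfin]
  exact rayZeros_card ho hne a ρ hρ v hv R hR hfin.toFinset (fun s hs => hfin.mem_toFinset.mp hs)

end Pool.Agent.W757.SF
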