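import Mathlib
import Pool.Agent.W757.SF.Defs

set_option autoImplicit false

open MeasureTheory

namespace Pool.Agent.W757.SF

/-- basic identity: for every frequency and phase -/
theorem basic_identity (Ω : Set E) (hb : Bornology.IsBounded Ω) (hm : MeasurableSet Ω)
    (lam c : ℝ) (u : E → ℝ) (G : E → E)
    (h1 : ∀ φ : E → ℝ, ContDiff ℝ 1 φ → HasCompactSupport φ → ∀ v : E,
          ∫ x in Ω, (u x - c) * (fderiv ℝ φ x v)
            = - ∫ x in Ω, @inner ℝ E _ (G x) v * φ x)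
    (h2 : ∀ φ : E → ℝ, ContDiff ℝ 1 φ → HasCompactSupport φ →
          ∫ x in Ω, fderiv ℝ φ x (G x) = lam * ∫ x in Ω, u x * φ x)
    (ξ : E) (θ : ℝ) :
    ‖ξ‖ ^ 2 * ∫ x in Ω, (u x - c) * Real.cos (@inner ℝ E _ ξ x + θ)
      = lam * ∫ x in Ω, u x * Real.cos (@inner ℝ E _ ξ x + θ) := by
  obtain ⟨r, hr⟩ := hb.subset_ball_lt 0 0
  have hr0 : 0 < r := hr.1
  have hΩr : Ω ⊆ Metric.ball 0 r := hr.2
  let χ : ContDiffBump (0 : E) := ⟨r, r + 1, hr0, by linarith⟩
  -- the linear form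
  let L : E →L[ℝ] ℝ := innerSL ℝ ξ
  have hL : ∀ x, L x = @inner ℝ E _ ξ x := fun x => rfl
  have hderL : ∀ x, HasFDerivAt (fun x => @inner ℝ E _ ξ x + θ) L x := by
    intro x
    have := (L.hasFDerivAt (x := x)).add_const θ
    exact this
  have hχ1 : ∀ x ∈ Ω, (χ : E → ℝ) =ᶠ[nhds x] fun _ => 1 := by
    intro x hx
    have hx' : x ∈ Metric.ball (0 : E) r := hΩr hx
    exact χ.eventuallyEq_one_of_mem_ball hx'
  have hχs : HasCompactSupport (χ : E → ℝ) := χ.hasCompactSupport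
  have hχc : ContDiff ℝ 1 (χ : E → ℝ) := χ.contDiff
  have hlin : ContDiff ℝ 1 (fun x : E => @inner ℝ E _ ξ x + θ) := by
    have : ContDiff ℝ 1 (fun x : E => L x + θ) := L.contDiff.add contDiff_const
    exact this
  have hcos : ContDiff ℝ 1 (fun x : E => Real.cos (@inner ℝ E _ ξ x + θ)) :=
    Real.contDiff_cos.comp hlin
  have hsin : ContDiff ℝ 1 (fun x : E => Real.sin (@inner ℝ E _ ξ x + θ)) :=
    Real.contDiff_sin.comp hlin
  -- first test function
  have k1 := h1 (fun x => χ x * (-Real.sin (@inner ℝ E _ ξ x + θ)))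
    (hχc.mul hsin.neg) (hχs.mul_right) ξ
  have k2 := h2 (fun x => χ x * Real.cos (@inner ℝ E _ ξ x + θ)) (hχc.mul hcos) (hχs.mul_right)
  have e1 : ∀ x ∈ Ω, fderiv ℝ (fun x => χ x * (-Real.sin (@inner ℝ E _ ξ x + θ))) x ξ
      = -(‖ξ‖ ^ 2 * Real.cos (@inner ℝ E _ ξ x + θ)) := by
    intro x hx
    have hev : (fun x => χ x * (-Real.sin (@inner ℝ E _ ξ x + θ))) =ᶠ[nhds x]
        fun x => -Real.sin (@inner ℝ E _ ξ x + θ) := by
      filter_upwards [hχ1 x hx] with y hy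
      rw [hy, one_mul]
    rw [hev.fderiv_eq]
    have hd : HasFDerivAt (fun x => -Real.sin (@inner ℝ E _ ξ x + θ))
        (-(Real.cos (@inner ℝ E _ ξ x + θ) • L)) x := ((hderL x).sin).neg
    rw [hd.fderiv]
    simp only [neg_apply, smul_apply, smul_eq_mul, hL,
      real_inner_self_eq_norm_sq]
    ring
  have e2 : ∀ x ∈ Ω, fderiv ℝ (fun x => χ x * Real.cos (@inner ℝ E _ ξ x + θ)) x (G x)
      = -(@inner ℝ E _ (G x) ξ * Real.sin (@inner ℝ E _ ξ x + θ)) := by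
    intro x hx
    have hev : (fun x => χ x * Real.cos (@inner ℝ E _ ξ x + θ)) =ᶠ[nhds x]
        fun x => Real.cos (@inner ℝ E _ ξ x + θ) := by
      filter_upwards [hχ1 x hx] with y hy
      rw [hy, one_mul]
    rw [hev.fderiv_eq]
    have hd : HasFDerivAt (fun x => Real.cos (@inner ℝ E _ ξ x + θ))
        (-Real.sin (@inner ℝ E _ ξ x + θ) • L) x := (hderL x).cos
    rw [hd.fderiv]
    simp only [smul_apply, smul_eq_mul, hL]
    have hc : @inner ℝ E _ ξ (G x) = @inner ℝ E _ (G x) ξ := real_inner_comm _ _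
    rw [hc]
    ring
  have e3 : ∀ x ∈ Ω, χ x = 1 := fun x hx => (hχ1 x hx).self_of_nhds
  have i1 : ∫ x in Ω, (u x - c) * fderiv ℝ (fun x => χ x * (-Real.sin (@inner ℝ E _ ξ x + θ))) x ξ
      = - (‖ξ‖ ^ 2 * ∫ x in Ω, (u x - c) * Real.cos (@inner ℝ E _ ξ x + θ)) := by
    rw [← integral_const_mul, ← integral_neg]
    refine setIntegral_congr_fun hm (fun x hx => ?_)
    beta_reduce
    rw [e1 x hx]
    ring
  have i2 : ∫ x in Ω, @inner ℝ E _ (G x) ξ * (χ x * (-Real.sin (@inner ℝ E _ ξ x + θ)))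
      = ∫ x in Ω, fderiv ℝ (fun x => χ x * Real.cos (@inner ℝ E _ ξ x + θ)) x (G x) := by
    refine setIntegral_congr_fun hm (fun x hx => ?_)
    beta_reduce
    rw [e2 x hx, e3 x hx]
    ring
  have i3 : ∫ x in Ω, u x * (χ x * Real.cos (@inner ℝ E _ ξ x + θ))
      = ∫ x in Ω, u x * Real.cos (@inner ℝ E _ ξ x + θ) := by
    refine setIntegral_congr_fun hm (fun x hx => ?_)
    beta_reduce
    rw [e3 x hx, one_mul]
  rw [i1, i2, k2, i3] at k1
  linarith

end Pool.Agent.W757.SF
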