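import Mathlib
import Pool.Agent.W757.SF.Four

set_option autoImplicit false

open MeasureTheory

namespace Pool.Agent.W757.SF

theorem cexp_integral_zero (μ : Measure E) [IsFiniteMeasure μ] (u : E → ℝ) (hu : Integrable u μ)
    (t : E) (h : ∀ θ : ℝ, ∫ x, u x * Real.cos (@inner ℝ E _ t x + θ) ∂μ = 0) :
    ∫ x, (u x : ℂ) * Complex.exp ((@inner ℝ E _ t x : ℝ) * Complex.I) ∂μ = 0 := by
  have hc : ∀ θ : ℝ, Integrable (fun x => u x * Real.cos (@inner ℝ E _ t x + θ)) μ := by
    intro θ
    refine hu.mul_bdd (c := 1) ?_ ?_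
    · exact (Real.continuous_cos.comp ((continuous_const.inner continuous_id).add
        continuous_const)).aestronglyMeasurable
    · exact Filter.Eventually.of_forall (fun x => by
        rw [Real.norm_eq_abs]; exact Real.abs_cos_le_one _)
  have e1 : ∀ x, (u x : ℂ) * Complex.exp ((@inner ℝ E _ t x : ℝ) * Complex.I)
      = ((u x * Real.cos (@inner ℝ E _ t x + 0) : ℝ) : ℂ)
        + ((u x * Real.cos (@inner ℝ E _ t x + (-(Real.pi / 2))) : ℝ) : ℂ) * Complex.I := by
    intro x
    rw [Complex.exp_mul_I]
    have : Real.cos (@inner ℝ E _ t x + (-(Real.pi / 2))) = Real.sin (@inner ℝ E _ t x) := by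
      rw [← sub_eq_add_neg, Real.cos_sub_pi_div_two]
    rw [this, add_zero]
    push_cast
    ring
  simp_rw [e1]
  rw [integral_add, integral_mul_const]
  · rw [integral_complex_ofReal, integral_complex_ofReal, h 0, h (-(Real.pi / 2))]
    simp
  · exact (hc 0).ofReal
  · exact ((hc (-(Real.pi / 2))).ofReal).mul_const _

theorem ae_zero_of_cos (μ : Measure E) [IsFiniteMeasure μ] (u : E → ℝ) (hu : Integrable u μ)
    (h : ∀ (ξ : E) (θ : ℝ), ∫ x, u x * Real.cos (@inner ℝ E _ ξ x + θ) ∂μ = 0) :
    u =ᵐ[μ] 0 := by
  have hum : AEMeasurable u μ := hu.1.aemeasurable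
  have humn : AEMeasurable (fun x => -u x) μ := hum.neg
  have f1 : IsFiniteMeasure (μ.withDensity (fun x => ENNReal.ofReal (u x))) :=
    isFiniteMeasure_withDensity_ofReal hu.2
  have f2 : IsFiniteMeasure (μ.withDensity (fun x => ENNReal.ofReal (-u x))) :=
    isFiniteMeasure_withDensity_ofReal hu.neg.2
  have heq : μ.withDensity (fun x => ENNReal.ofReal (u x))
      = μ.withDensity (fun x => ENNReal.ofReal (-u x)) := by
    refine Measure.ext_of_charFun (funext fun t => ?_)
    rw [charFun_apply, charFun_apply,
      integral_withDensity_eq_integral_toReal_smul₀ hum.ennreal_ofReal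
        (Filter.Eventually.of_forall fun _ => ENNReal.ofReal_lt_top),
      integral_withDensity_eq_integral_toReal_smul₀ humn.ennreal_ofReal
        (Filter.Eventually.of_forall fun _ => ENNReal.ofReal_lt_top), ← sub_eq_zero,
      ← integral_sub]
    · rw [← cexp_integral_zero μ u hu t (h t)]
      refine integral_congr_ae (Filter.Eventually.of_forall fun x => ?_)
      beta_reduce
      rw [ENNReal.toReal_ofReal', ENNReal.toReal_ofReal', ← sub_smul, real_inner_comm]
      have : max (u x) 0 - max (-u x) 0 = u x := by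
        rcases le_total 0 (u x) with h0 | h0
        · rw [max_eq_left h0, max_eq_right (by linarith)]; ring
        · rw [max_eq_right h0, max_eq_left (by linarith)]; ring
      rw [this, Complex.real_smul]
    · have : Integrable (fun x => (ENNReal.ofReal (u x)).toReal) μ := by
        simp_rw [ENNReal.toReal_ofReal']
        exact hu.pos_part
      refine this.smul_bdd 1 ?_ ?_
      · fun_prop
      · refine Filter.Eventually.of_forall fun x => ?_
        rw [Complex.norm_exp_ofReal_mul_I]
    · have : Integrable (fun x => (ENNReal.ofReal (-u x)).toReal) μ := by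
        simp_rw [ENNReal.toReal_ofReal']
        exact hu.neg.pos_part
      refine this.smul_bdd 1 ?_ ?_
      · fun_prop
      · refine Filter.Eventually.of_forall fun x => ?_
        rw [Complex.norm_exp_ofReal_mul_I]
  have h3 := (withDensity_eq_iff_of_sigmaFinite hum.ennreal_ofReal humn.ennreal_ofReal).mp heq
  filter_upwards [h3] with x hx
  simp only [Pi.zero_apply]
  rcases le_total 0 (u x) with h0 | h0
  · rw [ENNReal.ofReal_of_nonpos (by linarith : -u x ≤ 0), ENNReal.ofReal_eq_zero] at hx
    linarith
  · rw [ENNReal.ofReal_of_nonpos h0, eq_comm, ENNReal.ofReal_eq_zero] at hx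
    linarith

theorem fourier_zero {Ω : Set E} (hb : Bornology.IsBounded Ω) (hm : MeasurableSet Ω) {lam : ℝ}
    (hlam : 0 < lam) (hs : Solvable Ω lam) (ξ : E) (hξ : ‖ξ‖ ^ 2 = lam) :
    ∫ x in Ω, Complex.exp ((@inner ℝ E _ ξ x : ℝ) * Complex.I) = 0 := by
  obtain ⟨c, u, G, hu2, -, h1, h2, hne⟩ := hs
  have hfin : IsFiniteMeasure (volume.restrict Ω) := by
    constructor
    rw [Measure.restrict_apply_univ]
    exact hb.measure_lt_top
  have hu : Integrable u (volume.restrict Ω) := hu2.integrable one_le_two
  have key := fun ξ θ => basic_identity Ω hb hm lam c u G h1 h2 ξ θ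
  have hcos : ∀ (η : E) (θ : ℝ), Continuous (fun x : E => Real.cos (@inner ℝ E _ η x + θ)) := by
    intro η θ
    exact Real.continuous_cos.comp ((continuous_const.inner continuous_id).add continuous_const)
  have hb1 : ∀ (η : E) (θ : ℝ) (x : E), ‖Real.cos (@inner ℝ E _ η x + θ)‖ ≤ 1 := by
    intro η θ x
    rw [Real.norm_eq_abs]; exact Real.abs_cos_le_one _
  have hi1 : ∀ (η : E) (θ : ℝ), Integrable (fun x => Real.cos (@inner ℝ E _ η x + θ))
      (volume.restrict Ω) := fun η θ =>
    (integrable_const (1 : ℝ)).mono' (hcos η θ).aestronglyMeasurable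
      (Filter.Eventually.of_forall fun x => hb1 η θ x)
  have hi2 : ∀ (η : E) (θ : ℝ), Integrable (fun x => u x * Real.cos (@inner ℝ E _ η x + θ))
      (volume.restrict Ω) := fun η θ =>
    hu.mul_bdd (hcos η θ).aestronglyMeasurable (Filter.Eventually.of_forall fun x => hb1 η θ x)
  have split : ∀ (η : E) (θ : ℝ), ∫ x in Ω, (u x - c) * Real.cos (@inner ℝ E _ η x + θ)
      = (∫ x in Ω, u x * Real.cos (@inner ℝ E _ η x + θ))
        - c * ∫ x in Ω, Real.cos (@inner ℝ E _ η x + θ) := by
    intro η θ
    rw [← integral_const_mul, ← integral_sub (hi2 η θ) ((hi1 η θ).const_mul c)]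
    refine integral_congr_ae (Filter.Eventually.of_forall fun x => ?_)
    beta_reduce
    ring
  -- c is not zero
  have hc : c ≠ 0 := by
    intro hc0
    apply hne
    apply ae_zero_of_cos _ u hu
    have hz : ∀ (η : E) (θ : ℝ), ‖η‖ ^ 2 ≠ lam →
        ∫ x in Ω, u x * Real.cos (@inner ℝ E _ η x + θ) = 0 := by
      intro η θ hη
      have k := key η θ
      rw [split, hc0, zero_mul, sub_zero] at k
      have : (‖η‖ ^ 2 - lam) * ∫ x in Ω, u x * Real.cos (@inner ℝ E _ η x + θ) = 0 := by
        linarith
      rcases mul_eq_zero.mp this with h | h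
      · exact absurd (by linarith) hη
      · exact h
    intro η θ
    by_cases hη : ‖η‖ ^ 2 = lam
    · -- approach by multiples
      have hcont : Continuous (fun s : ℝ =>
          ∫ x in Ω, u x * Real.cos (@inner ℝ E _ (s • η) x + θ)) := by
        refine continuous_of_dominated (bound := fun x => |u x|) ?_ ?_ ?_ ?_
        · intro s; exact (hi2 (s • η) θ).1
        · intro s
          refine Filter.Eventually.of_forall fun x => ?_
          rw [norm_mul]
          calc ‖u x‖ * ‖Real.cos (@inner ℝ E _ (s • η) x + θ)‖ ≤ ‖u x‖ * 1 :=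
                mul_le_mul_of_nonneg_left (hb1 _ _ _) (norm_nonneg _)
            _ = |u x| := by rw [mul_one, Real.norm_eq_abs]
        · exact hu.abs
        · refine Filter.Eventually.of_forall fun x => ?_
          refine continuous_const.mul (Real.continuous_cos.comp ?_)
          exact ((continuous_id.smul continuous_const).inner continuous_const).add
            continuous_const
      have hzero : ∀ s : ℝ, s ∈ (Set.Ioi (1 : ℝ)) →
          ∫ x in Ω, u x * Real.cos (@inner ℝ E _ (s • η) x + θ) = 0 := by
        intro s hs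
        apply hz
        rw [norm_smul, mul_pow, hη, Real.norm_eq_abs, sq_abs]
        have hs1 : (1 : ℝ) < s := hs
        intro h
        have : (s ^ 2 - 1) * lam = 0 := by linarith
        rcases mul_eq_zero.mp this with h' | h'
        · nlinarith
        · linarith
      have hcl : (1 : ℝ) ∈ closure (Set.Ioi (1 : ℝ)) := by
        rw [closure_Ioi]; exact Set.self_mem_Ici
      have hcs : IsClosed {s : ℝ | ∫ x in Ω, u x * Real.cos (@inner ℝ E _ (s • η) x + θ) = 0} :=
        isClosed_eq hcont continuous_const
      have h4 : (∫ x in Ω, u x * Real.cos (@inner ℝ E _ ((1 : ℝ) • η) x + θ)) = 0 :=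
        closure_minimal (fun s hs => hzero s hs) hcs hcl
      rwa [one_smul] at h4
    · exact hz η θ hη
  have hcosz : ∀ θ : ℝ, ∫ x in Ω, (1 : ℝ) * Real.cos (@inner ℝ E _ ξ x + θ) = 0 := by
    intro θ
    have k := key ξ θ
    rw [split, hξ] at k
    have : lam * c * ∫ x in Ω, Real.cos (@inner ℝ E _ ξ x + θ) = 0 := by linarith
    simp only [one_mul]
    rcases mul_eq_zero.mp this with h | h
    · exact absurd h (mul_ne_zero hlam.ne' hc)
    · exact h
  have := cexp_integral_zero (volume.restrict Ω) (fun _ => 1) (integrable_const 1) ξ hcosz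
  simpa using this

end Pool.Agent.W757.SF
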