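import Mathlib
import Pool.Agent.W757.SF.Four2
import Pool.Agent.W757.SF.Dir

set_option autoImplicit false

open MeasureTheory

namespace Pool.Agent.W757.SF

/-- inverse transpose -/
noncomputable def invT (A : E ≃L[ℝ] E) : E →L[ℝ] E :=
  ContinuousLinearMap.adjoint (A.symm : E →L[ℝ] E)

theorem invT_inner (A : E ≃L[ℝ] E) (η x : E) :
    @inner ℝ E _ (invT A η) (A x) = @inner ℝ E _ η x := by
  rw [invT, ContinuousLinearMap.adjoint_inner_left]
  simp

theorem lin_fourier {Ω : Set E} (hb : Bornology.IsBounded Ω) (hm : MeasurableSet Ω)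
    (A : E ≃L[ℝ] E) {lam : ℝ} (hlam : 0 < lam) (hs : Solvable (A '' Ω) lam) (η : E)
    (hη : ‖invT A η‖ ^ 2 = lam) :
    ∫ x in Ω, Complex.exp ((@inner ℝ E _ η x : ℝ) * Complex.I) = 0 := by
  have hb' : Bornology.IsBounded (A '' Ω) := by
    have := (A : E →L[ℝ] E).lipschitz.isBounded_image hb
    exact this
  have hm' : MeasurableSet (A '' Ω) :=
    A.toHomeomorph.measurableEmbedding.measurableSet_image.mpr hm
  have h1 := fourier_zero hb' hm' hlam hs (invT A η) hη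
  rw [integral_image_eq_integral_abs_det_fderiv_smul volume hm
    (f' := fun _ => (A : E →L[ℝ] E)) (fun x _ => A.hasFDerivWithinAt) A.injective.injOn] at h1
  have hdet : (A : E →L[ℝ] E).det ≠ 0 := by
    have := A.det_coe_symm
    intro h
    have h2 : IsUnit (LinearMap.det ((A : E →L[ℝ] E) : E →ₗ[ℝ] E)) :=
      LinearEquiv.isUnit_det' A.toLinearEquiv
    exact h2.ne_zero h
  have h2 : ∫ x in Ω, |(A : E →L[ℝ] E).det| •
      Complex.exp ((@inner ℝ E _ (invT A η) (A x) : ℝ) * Complex.I)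
      = |(A : E →L[ℝ] E).det| • ∫ x in Ω, Complex.exp ((@inner ℝ E _ η x : ℝ) * Complex.I) := by
    rw [← integral_smul]
    refine integral_congr_ae (Filter.Eventually.of_forall fun x => ?_)
    beta_reduce
    rw [invT_inner]
  rw [h2] at h1
  rcases smul_eq_zero.mp h1 with h | h
  · exact absurd (abs_eq_zero.mp h) hdet
  · exact h

theorem invT_ne (A : E ≃L[ℝ] E) (v : E) (hv : v ≠ 0) : 0 < ‖invT A v‖ := by
  rw [norm_pos_iff]
  intro h
  have := invT_inner A v v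
  rw [h, inner_zero_left, real_inner_self_eq_norm_sq] at this
  have h2 : 0 < ‖v‖ ^ 2 := by positivity
  linarith

/-- the radius at which the exceptional ellipse meets the ray spanned by the unit vector `v` -/
theorem ray_mem {Ω : Set E} (hb : Bornology.IsBounded Ω) (hm : MeasurableSet Ω)
    (A : E ≃L[ℝ] E) {lam : ℝ} (hlam : 0 < lam) (hs : Solvable (A '' Ω) lam) (v : E)
    (hv : ‖v‖ = 1) (R : ℝ) (hR : 0 < R) (hA : lam * ‖(A : E →L[ℝ] E)‖ ^ 2 ≤ R ^ 2) :
    ∃ s ∈ rayZeros Ω v R, ‖invT A v‖ ^ 2 = lam / s ^ 2 := by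
  have hv0 : v ≠ 0 := by
    intro h; rw [h, norm_zero] at hv; exact zero_ne_one hv
  have hp := invT_ne A v hv0
  set b := ‖invT A v‖ with hbdef
  have hb1 : 1 ≤ b * ‖(A : E →L[ℝ] E)‖ := by
    have h1 := invT_inner A v v
    rw [real_inner_self_eq_norm_sq, hv, one_pow] at h1
    have h2 : @inner ℝ E _ (invT A v) (A v) ≤ ‖invT A v‖ * ‖A v‖ := real_inner_le_norm _ _
    have h3 : ‖A v‖ ≤ ‖(A : E →L[ℝ] E)‖ * ‖v‖ := (A : E →L[ℝ] E).le_opNorm v
    rw [hv, mul_one] at h3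
    calc (1 : ℝ) = @inner ℝ E _ (invT A v) (A v) := h1.symm
      _ ≤ b * ‖A v‖ := h2
      _ ≤ b * ‖(A : E →L[ℝ] E)‖ := mul_le_mul_of_nonneg_left h3 hp.le
  set s := Real.sqrt lam / b with hsdef
  have hs0 : 0 < s := div_pos (Real.sqrt_pos.mpr hlam) hp
  have hs2 : s ^ 2 * b ^ 2 = lam := by
    rw [hsdef, div_pow, Real.sq_sqrt hlam.le]
    field_simp
  refine ⟨s, ⟨hs0, ?_, ?_⟩, ?_⟩
  · -- s ≤ R
    have h1 : s ^ 2 ≤ R ^ 2 := by
      have h2 : s ^ 2 * 1 ≤ s ^ 2 * (b * ‖(A : E →L[ℝ] E)‖) ^ 2 :=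
        mul_le_mul_of_nonneg_left (one_le_pow₀ hb1) (by positivity)
      calc s ^ 2 = s ^ 2 * 1 := (mul_one _).symm
        _ ≤ s ^ 2 * (b * ‖(A : E →L[ℝ] E)‖) ^ 2 := h2
        _ = (s ^ 2 * b ^ 2) * ‖(A : E →L[ℝ] E)‖ ^ 2 := by ring
        _ = lam * ‖(A : E →L[ℝ] E)‖ ^ 2 := by rw [hs2]
        _ ≤ R ^ 2 := hA
    exact (abs_le_of_sq_le_sq' h1 hR.le).2
  · have h := lin_fourier hb hm A hlam hs (s • v) ?_
    · rw [← h]
      refine integral_congr_ae (Filter.Eventually.of_forall fun x => ?_)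
      beta_reduce
      rw [inner_smul_left]
      simp
    · rw [map_smul, norm_smul, Real.norm_eq_abs, abs_of_pos hs0, mul_pow]
      exact hs2
  · rw [eq_div_iff (by positivity)]
    linarith

end Pool.Agent.W757.SF
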