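import Mathlib
import Pool.Agent.W757.SF.Lin

set_option autoImplicit false

open MeasureTheory

namespace Pool.Agent.W757.SF

theorem gram_alg (a0 a1 c0 c1 p0 p1 q0 q1 lam P Q T : ℝ) (hl : 0 < lam)
    (h1 : p0 * a0 + p1 * a1 = 1) (h2 : p0 * c0 + p1 * c1 = 0) (h3 : q0 * a0 + q1 * a1 = 0)
    (h4 : q0 * c0 + q1 * c1 = 1) (hP : p0 ^ 2 + p1 ^ 2 = lam * P) (hQ : q0 ^ 2 + q1 ^ 2 = lam * Q)
    (hT : p0 * q0 + p1 * q1 = lam * T) :
    lam * (a0 ^ 2 + a1 ^ 2) = Q / (P * Q - T ^ 2) ∧ lam * (c0 ^ 2 + c1 ^ 2) = P / (P * Q - T ^ 2)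
      ∧ lam * (a0 * c0 + a1 * c1) = -T / (P * Q - T ^ 2) := by
  set D := p0 * q1 - p1 * q0 with hD
  have d1 : D * a0 = q1 := by
    have : D * a0 = q1 * (p0 * a0 + p1 * a1) - p1 * (q0 * a0 + q1 * a1) := by rw [hD]; ring
    rw [this, h1, h3]; ring
  have d2 : D * a1 = -q0 := by
    have : D * a1 = p0 * (q0 * a0 + q1 * a1) - q0 * (p0 * a0 + p1 * a1) := by rw [hD]; ring
    rw [this, h1, h3]; ring
  have d3 : D * c0 = -p1 := by
    have : D * c0 = q1 * (p0 * c0 + p1 * c1) - p1 * (q0 * c0 + q1 * c1) := by rw [hD]; ring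
    rw [this, h2, h4]; ring
  have d4 : D * c1 = p0 := by
    have : D * c1 = p0 * (q0 * c0 + q1 * c1) - q0 * (p0 * c0 + p1 * c1) := by rw [hD]; ring
    rw [this, h2, h4]; ring
  have hD0 : D ≠ 0 := by
    intro h
    rw [h, zero_mul] at d3 d4
    rw [← d4, show p1 = 0 by linarith] at h1
    norm_num at h1
  have hD2 : D ^ 2 = lam ^ 2 * (P * Q - T ^ 2) := by
    have : D ^ 2 = (p0 ^ 2 + p1 ^ 2) * (q0 ^ 2 + q1 ^ 2) - (p0 * q0 + p1 * q1) ^ 2 := by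
      rw [hD]; ring
    rw [this, hP, hQ, hT]; ring
  have hk : P * Q - T ^ 2 ≠ 0 := by
    intro h
    rw [h, mul_zero] at hD2
    exact hD0 (pow_eq_zero_iff (two_ne_zero) |>.mp hD2)
  have hl2 : lam ≠ 0 := hl.ne'
  refine ⟨?_, ?_, ?_⟩
  · rw [eq_div_iff hk]
    have h5 : D ^ 2 * (a0 ^ 2 + a1 ^ 2) = lam * Q := by
      have : D ^ 2 * (a0 ^ 2 + a1 ^ 2) = (D * a0) ^ 2 + (D * a1) ^ 2 := by ring
      rw [this, d1, d2, ← hQ]; ring
    rw [hD2] at h5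
    have h6 : lam * (lam * (a0 ^ 2 + a1 ^ 2) * (P * Q - T ^ 2)) = lam * Q := by linarith
    exact mul_left_cancel₀ hl2 h6
  · rw [eq_div_iff hk]
    have h5 : D ^ 2 * (c0 ^ 2 + c1 ^ 2) = lam * P := by
      have : D ^ 2 * (c0 ^ 2 + c1 ^ 2) = (D * c0) ^ 2 + (D * c1) ^ 2 := by ring
      rw [this, d3, d4, ← hP]; ring
    rw [hD2] at h5
    have h6 : lam * (lam * (c0 ^ 2 + c1 ^ 2) * (P * Q - T ^ 2)) = lam * P := by linarith
    exact mul_left_cancel₀ hl2 h6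
  · rw [eq_div_iff hk]
    have h5 : D ^ 2 * (a0 * c0 + a1 * c1) = lam * (-T) := by
      have : D ^ 2 * (a0 * c0 + a1 * c1) = (D * a0) * (D * c0) + (D * a1) * (D * c1) := by ring
      rw [this, d1, d2, d3, d4]
      linarith
    rw [hD2] at h5
    have h6 : lam * (lam * (a0 * c0 + a1 * c1) * (P * Q - T ^ 2)) = lam * (-T) := by linarith
    exact mul_left_cancel₀ hl2 h6

/-- the Gram matrix recovered from three radii -/
noncomputable def recover (s : ℝ × ℝ × ℝ) : ℝ × ℝ × ℝ :=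
  let P := 1 / s.1 ^ 2
  let Q := 1 / s.2.1 ^ 2
  let T := (2 / s.2.2 ^ 2 - P - Q) / 2
  (Q / (P * Q - T ^ 2), P / (P * Q - T ^ 2), -T / (P * Q - T ^ 2))

noncomputable def e1 : E := EuclideanSpace.single 0 1
noncomputable def e2 : E := EuclideanSpace.single 1 1
noncomputable def e3 : E := (Real.sqrt 2)⁻¹ • (e1 + e2)

theorem norm_e1 : ‖e1‖ = 1 := by simp [e1]
theorem norm_e2 : ‖e2‖ = 1 := by simp [e2]
theorem inner_e12 : @inner ℝ E _ e1 e2 = 0 := by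
  simp [e1, e2, EuclideanSpace.inner_single_left]
theorem inner_coord (x y : E) : @inner ℝ E _ x y = x 0 * y 0 + x 1 * y 1 := by
  rw [PiLp.inner_apply]
  simp [Fin.sum_univ_two]
  ring
theorem norm_coord (x : E) : ‖x‖ ^ 2 = x 0 ^ 2 + x 1 ^ 2 := by
  rw [← real_inner_self_eq_norm_sq, inner_coord]; ring
theorem norm_e3 : ‖e3‖ = 1 := by
  have h : ‖e3‖ ^ 2 = 1 := by
    rw [e3, norm_smul, mul_pow, ← real_inner_self_eq_norm_sq (e1 + e2)]
    rw [inner_add_left, inner_add_right, inner_add_right, real_inner_self_eq_norm_sq,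
      real_inner_self_eq_norm_sq, norm_e1, norm_e2, inner_e12, real_inner_comm, inner_e12]
    rw [norm_inv, inv_pow, Real.norm_eq_abs, sq_abs, Real.sq_sqrt (by norm_num)]
    norm_num
  nlinarith [norm_nonneg e3]

theorem gram_mem {Ω : Set E} (hb : Bornology.IsBounded Ω) (hm : MeasurableSet Ω)
    (A : E ≃L[ℝ] E) {lam : ℝ} (hlam : 0 < lam) (hs : Solvable (A '' Ω) lam) (R : ℝ) (hR : 0 < R)
    (hA : lam * ‖(A : E →L[ℝ] E)‖ ^ 2 ≤ R ^ 2) :
    gram A lam ∈ recover '' (rayZeros Ω e1 R ×ˢ rayZeros Ω e2 R ×ˢ rayZeros Ω e3 R) := by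
  obtain ⟨s1, hs1, k1⟩ := ray_mem hb hm A hlam hs e1 norm_e1 R hR hA
  obtain ⟨s2, hs2, k2⟩ := ray_mem hb hm A hlam hs e2 norm_e2 R hR hA
  obtain ⟨s3, hs3, k3⟩ := ray_mem hb hm A hlam hs e3 norm_e3 R hR hA
  refine ⟨(s1, s2, s3), ⟨hs1, hs2, hs3⟩, ?_⟩
  have i1 := invT_inner A e1 e1
  have i2 := invT_inner A e1 e2
  have i3 := invT_inner A e2 e1
  have i4 := invT_inner A e2 e2
  rw [real_inner_self_eq_norm_sq, norm_e1, one_pow, inner_coord] at i1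
  rw [real_inner_self_eq_norm_sq, norm_e2, one_pow, inner_coord] at i4
  rw [inner_e12, inner_coord] at i2
  rw [real_inner_comm e1 e2, inner_e12, inner_coord] at i3
  have n1 := norm_coord (invT A e1)
  have n2 := norm_coord (invT A e2)
  rw [k1] at n1
  rw [k2] at n2
  -- third
  have k3' : ‖invT A e1 + invT A e2‖ ^ 2 = 2 * (lam / s3 ^ 2) := by
    rw [← k3, e3, map_smul, norm_smul, mul_pow, map_add, norm_inv, inv_pow, Real.norm_eq_abs,
      sq_abs, Real.sq_sqrt (by norm_num)]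
    ring
  rw [norm_coord] at k3'
  simp only [PiLp.add_apply] at k3'
  have key := gram_alg (A e1 0) (A e1 1) (A e2 0) (A e2 1) (invT A e1 0) (invT A e1 1)
    (invT A e2 0) (invT A e2 1) lam (1 / s1 ^ 2) (1 / s2 ^ 2)
    ((2 / s3 ^ 2 - 1 / s1 ^ 2 - 1 / s2 ^ 2) / 2) hlam i1 i2 i3 i4
    (by rw [← n1]; ring) (by rw [← n2]; ring) ?_
  · obtain ⟨g1, g2, g3⟩ := key
    unfold recover gram
    simp only
    have f1 : lam * ‖A (EuclideanSpace.single 0 1)‖ ^ 2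
        = lam * (A e1 0 ^ 2 + A e1 1 ^ 2) := by
      rw [← norm_coord]; rfl
    have f2 : lam * ‖A (EuclideanSpace.single 1 1)‖ ^ 2
        = lam * (A e2 0 ^ 2 + A e2 1 ^ 2) := by
      rw [← norm_coord]; rfl
    have f3 : lam * @inner ℝ E _ (A (EuclideanSpace.single 0 1)) (A (EuclideanSpace.single 1 1))
        = lam * (A e1 0 * A e2 0 + A e1 1 * A e2 1) := by
      rw [← inner_coord]; rfl
    rw [f1, f2, f3, g1, g2, g3]
  · have e5 : lam * ((2 / s3 ^ 2 - 1 / s1 ^ 2 - 1 / s2 ^ 2) / 2)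
        = (2 * (lam / s3 ^ 2) - lam / s1 ^ 2 - lam / s2 ^ 2) / 2 := by ring
    rw [e5, ← k3', n1, n2]
    ring

end Pool.Agent.W757.SF
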