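import Mathlib
import Pool.Agent.W757.SF.Lin

set_option autoImplicit false

open MeasureTheory

namespace Pool.Agent.W757.SF

/-- coordinates with respect to an orthonormal basis -/
noncomputable def coord (b : OrthonormalBasis (Fin 2) ℝ E) : E ≃ᵐ ℝ × ℝ :=
  b.measurableEquiv.trans ((MeasurableEquiv.toLp 2 (Fin 2 → ℝ)).symm.trans
    MeasurableEquiv.finTwoArrow)

theorem coord_apply (b : OrthonormalBasis (Fin 2) ℝ E) (x : E) :
    coord b x = (@inner ℝ E _ (b 0) x, @inner ℝ E _ (b 1) x) := by
  have h0 : b.repr x 0 = @inner ℝ E _ (b 0) x := b.repr_apply_apply x 0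
  have h1 : b.repr x 1 = @inner ℝ E _ (b 1) x := b.repr_apply_apply x 1
  rw [← h0, ← h1]
  rfl

theorem coord_mp (b : OrthonormalBasis (Fin 2) ℝ E) :
    MeasurePreserving (coord b) volume volume :=
  b.measurePreserving_measurableEquiv.trans
    ((EuclideanSpace.volume_preserving_symm_measurableEquiv_toLp (Fin 2)).trans
      (volume_preserving_finTwoArrow ℝ))

theorem prod_shear_mp (h : ℝ → ℝ) (hc : Continuous h) (t : ℝ) :
    MeasurePreserving (fun p : ℝ × ℝ => (p.1, p.2 + t * h p.1)) volume volume := by
  have := MeasurePreserving.skew_product (μa := (volume : Measure ℝ)) (μc := (volume : Measure ℝ))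
    (μd := (volume : Measure ℝ)) (MeasurePreserving.id (volume : Measure ℝ))
    (g := fun a c : ℝ => c + t * h a) ?_ ?_
  · exact this
  · have : Continuous (Function.uncurry (fun a c : ℝ => c + t * h a)) := by
      exact continuous_snd.add (continuous_const.mul (hc.comp continuous_fst))
    exact this.measurable
  · refine Filter.Eventually.of_forall fun a => ?_
    exact map_add_right_eq_self volume (t * h a)

section
variable (e f : E) (he : ‖e‖ = 1) (hf : ‖f‖ = 1) (hef : @inner ℝ E _ e f = 0)

theorem onb (he : ‖e‖ = 1) (hf : ‖f‖ = 1) (hef : @inner ℝ E _ e f = 0) :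
    ∃ b : OrthonormalBasis (Fin 2) ℝ E, b 0 = e ∧ b 1 = f := by
  have hon : Orthonormal ℝ ![e, f] := by
    rw [orthonormal_iff_ite]
    intro i j
    fin_cases i <;> fin_cases j
    · simp [he]
    · simpa using hef
    · simpa [real_inner_comm] using hef
    · simp [hf]
  have hcard : Fintype.card (Fin 2) = Module.finrank ℝ E := by simp
  refine ⟨(basisOfOrthonormalOfCardEqFinrank hon hcard).toOrthonormalBasis ?_, ?_, ?_⟩
  · rw [coe_basisOfOrthonormalOfCardEqFinrank]; exact hon
  · simp
  · simp

theorem shear_inner_e (hef : @inner ℝ E _ e f = 0) (h : ℝ → ℝ) (t : ℝ) (x : E) :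
    @inner ℝ E _ (shear e f h t x) e = @inner ℝ E _ x e := by
  have hfe : @inner ℝ E _ f e = 0 := by rw [real_inner_comm]; exact hef
  rw [shear, inner_add_left, inner_smul_left, hfe]
  simp

/-- the shear as a homeomorphism -/
noncomputable def shearH (hef : @inner ℝ E _ e f = 0) (h : ℝ → ℝ) (hc : Continuous h) (t : ℝ) :
    E ≃ₜ E where
  toFun := shear e f h t
  invFun := shear e f h (-t)
  left_inv x := by
    have := shear_inner_e e f hef h t x
    unfold shear at this ⊢
    rw [this]
    module
  right_inv x := by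
    have := shear_inner_e e f hef h (-t) x
    unfold shear at this ⊢
    rw [this]
    module
  continuous_toFun := by
    unfold shear
    fun_prop
  continuous_invFun := by
    unfold shear
    fun_prop

theorem shear_mp (he : ‖e‖ = 1) (hf : ‖f‖ = 1) (hef : @inner ℝ E _ e f = 0) (h : ℝ → ℝ)
    (hc : Continuous h) (t : ℝ) : MeasurePreserving (shear e f h t) volume volume := by
  obtain ⟨b, hb0, hb1⟩ := onb e f he hf hef
  have h1 : shear e f h t = fun x => (coord b).symm
      ((fun p : ℝ × ℝ => (p.1, p.2 + t * h p.1)) (coord b x)) := by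
    funext x
    rw [MeasurableEquiv.eq_symm_apply, coord_apply, coord_apply, hb0, hb1]
    have e1 : @inner ℝ E _ e (shear e f h t x) = @inner ℝ E _ e x := by
      rw [real_inner_comm, shear_inner_e e f hef, real_inner_comm]
    have e2 : @inner ℝ E _ f (shear e f h t x) = @inner ℝ E _ f x + t * h (@inner ℝ E _ e x) := by
      rw [shear, inner_add_right, inner_smul_right, real_inner_self_eq_norm_sq, hf,
        real_inner_comm e x]
      ring
    rw [e1, e2]
  rw [h1]
  exact ((coord_mp b).symm).comp ((prod_shear_mp h hc t).comp (coord_mp b))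

end

end Pool.Agent.W757.SF
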