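import Mathlib
import Pool.Agent.W757.SF.Gram
import Pool.Agent.W757.SF.Shear

set_option autoImplicit false

open MeasureTheory

namespace Pool.Agent.W757.SF

/-- the analytic function attached to a frequency and a shear profile does not vanish -/
theorem profile_ne_zero {Ω : Set E} (ho : IsOpen Ω) (hb : Bornology.IsBounded Ω)
    (e f : E) (h : ℝ → ℝ) (hc : Continuous h) (x0 : ℝ)
    (hx0 : x0 ∈ closure ((fun x : E => @inner ℝ E _ x e) '' Ω))
    (hmax : ∀ y ∈ closure ((fun x : E => @inner ℝ E _ x e) '' Ω), y ≠ x0 → h y < h x0)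
    (α β ρ r : ℝ) (hα0 : 0 ≤ α) (hαr : α ≤ r) (hβ : 0 < β) (hβρ : β * ρ ≤ 1 / 2)
    (hρ : ∀ x ∈ Ω, |@inner ℝ E _ f x| ≤ ρ) :
    ∃ z : ℂ, ∫ x in Ω, Complex.exp (z * ((β * h (@inner ℝ E _ x e) : ℝ) : ℂ) * Complex.I)
      * Complex.exp ((@inner ℝ E _ (α • e + β • f) x : ℝ) * Complex.I) ≠ 0 := by
  have hm : MeasurableSet Ω := ho.measurableSet
  have hfin : IsFiniteMeasure (volume.restrict Ω) := by
    constructor
    rw [Measure.restrict_apply_univ]
    exact hb.measure_lt_top
  have hr0 : 0 ≤ r := hα0.trans hαr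
  set K : Set ℝ := closure ((fun x : E => @inner ℝ E _ x e) '' Ω) with hK
  have hKc : IsCompact K := by
    have hbd : Bornology.IsBounded ((fun x : E => @inner ℝ E _ x e) '' Ω) := by
      have hl : (fun x : E => @inner ℝ E _ x e) = fun x => (innerSL ℝ e) x := by
        funext x; rw [innerSL_apply_apply, real_inner_comm]
      rw [hl]
      exact (innerSL ℝ e).lipschitz.isBounded_image hb
    exact Metric.isCompact_of_isClosed_isBounded isClosed_closure hbd.closure
  have hKΩ : ∀ x ∈ Ω, @inner ℝ E _ x e ∈ K := fun x hx =>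
    subset_closure (Set.mem_image_of_mem _ hx)
  set ε : ℝ := 1 / (2 * (r + 1)) with hε
  have hε0 : 0 < ε := by positivity
  have hrε : r * ε ≤ 1 / 2 := by
    rw [hε]
    rw [mul_one_div, div_le_div_iff₀ (by positivity) (by norm_num)]
    linarith
  -- gap
  obtain ⟨δ, hδ0, hδ⟩ : ∃ δ : ℝ, 0 < δ ∧ ∀ y ∈ K, ε ≤ |y - x0| → h y ≤ h x0 - δ := by
    have hK' : IsCompact (K ∩ {y | ε ≤ |y - x0|}) :=
      hKc.inter_right (isClosed_le continuous_const ((continuous_id.sub continuous_const).abs))
    rcases (K ∩ {y | ε ≤ |y - x0|}).eq_empty_or_nonempty with hem | hnem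
    · refine ⟨1, one_pos, fun y hy hy' => ?_⟩
      have : y ∈ K ∩ {y | ε ≤ |y - x0|} := ⟨hy, hy'⟩
      rw [hem] at this
      exact this.elim
    · obtain ⟨y1, hy1, hy1m⟩ := hK'.exists_isMaxOn hnem hc.continuousOn
      have hne : y1 ≠ x0 := by
        intro hh
        have h2 : ε ≤ |y1 - x0| := hy1.2
        rw [hh, sub_self, abs_zero] at h2
        linarith
      have hlt := hmax y1 hy1.1 hne
      refine ⟨h x0 - h y1, by linarith, fun y hy hy' => ?_⟩
      have h3 : h y ≤ h y1 := hy1m ⟨hy, hy'⟩
      linarith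
  -- the open set near the maximum
  set U : Set E := {x | x ∈ Ω ∧ |@inner ℝ E _ x e - x0| < ε ∧
    h x0 - δ / 2 < h (@inner ℝ E _ x e)} with hU
  have hinc : Continuous (fun x : E => @inner ℝ E _ x e) := continuous_id.inner continuous_const
  have hUo : IsOpen U := by
    have h1 : IsOpen {x : E | |@inner ℝ E _ x e - x0| < ε} :=
      isOpen_lt ((hinc.sub continuous_const).abs) continuous_const
    have h2 : IsOpen {x : E | h x0 - δ / 2 < h (@inner ℝ E _ x e)} :=
      isOpen_lt continuous_const (hc.comp hinc)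
    exact ho.inter (h1.inter h2)
  have hUne : U.Nonempty := by
    have hW : {y : ℝ | |y - x0| < ε ∧ h x0 - δ / 2 < h y} ∈ nhds x0 := by
      have h1 : IsOpen {y : ℝ | |y - x0| < ε ∧ h x0 - δ / 2 < h y} :=
        (isOpen_lt ((continuous_id.sub continuous_const).abs) continuous_const).inter
          (isOpen_lt continuous_const hc)
      refine h1.mem_nhds ⟨?_, ?_⟩
      · rw [sub_self, abs_zero]; exact hε0
      · linarith
    obtain ⟨y, hyW, x, hx, hxy⟩ := mem_closure_iff_nhds.mp hx0 _ hW
    have hxy' : @inner ℝ E _ x e = y := hxy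
    exact ⟨x, hx, by rw [hxy']; exact hyW.1, by rw [hxy']; exact hyW.2⟩
  have hUΩ : U ⊆ Ω := fun x hx => hx.1
  have hUm : MeasurableSet U := hUo.measurableSet
  set m : ℝ := (volume.restrict Ω).real U with hmdef
  have hmpos : 0 < m := by
    rw [hmdef, measureReal_def, Measure.restrict_apply hUm, Set.inter_eq_left.mpr hUΩ]
    exact ENNReal.toReal_pos (hUo.measure_pos volume hUne).ne'
      ((measure_mono hUΩ).trans_lt hb.measure_lt_top).ne
  set V : ℝ := (volume.restrict Ω).real Set.univ with hV
  have hV0 : 0 ≤ V := measureReal_nonneg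
  -- choose τ
  obtain ⟨τ, hτ0, hτ⟩ : ∃ τ : ℝ, 0 < τ ∧ V < 1 / 2 * Real.exp (τ * β * (δ / 2)) * m := by
    have hlim : Filter.Tendsto (fun τ : ℝ => 1 / 2 * Real.exp (τ * β * (δ / 2)) * m)
        Filter.atTop Filter.atTop := by
      refine Filter.Tendsto.atTop_mul_const hmpos ?_
      refine Filter.Tendsto.const_mul_atTop (by norm_num) ?_
      refine Real.tendsto_exp_atTop.comp ?_
      refine Filter.Tendsto.atTop_mul_const (by positivity) ?_
      exact Filter.Tendsto.atTop_mul_const hβ Filter.tendsto_id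
    obtain ⟨τ, h1, h2⟩ := ((hlim.eventually_gt_atTop V).and
      (Filter.eventually_gt_atTop (0 : ℝ))).exists
    exact ⟨τ, h2, h1⟩
  refine ⟨-((τ : ℂ) * Complex.I), fun hzero => ?_⟩
  -- bounded profile on Ω
  obtain ⟨H, hH⟩ := hKc.exists_bound_of_continuousOn hc.continuousOn
  set Fc : E → ℂ := fun x => ((Real.exp (τ * (β * h (@inner ℝ E _ x e))) : ℝ) : ℂ)
    * Complex.exp (((@inner ℝ E _ (α • e + β • f) x - α * x0 : ℝ) : ℂ) * Complex.I) with hFc
  have hFint : Integrable Fc (volume.restrict Ω) := by
    refine (integrable_const (Real.exp (τ * (β * H)))).mono' ?_ ?_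
    · have : Continuous Fc := by
        have h1 : Continuous (fun x : E => h (@inner ℝ E _ x e)) := hc.comp hinc
        have h2 : Continuous (fun x : E => @inner ℝ E _ (α • e + β • f) x) :=
          continuous_const.inner continuous_id
        simp only [hFc]
        fun_prop
      exact this.aestronglyMeasurable
    · refine (ae_restrict_iff' hm).mpr (Filter.Eventually.of_forall fun x hx => ?_)
      simp only [hFc]
      rw [norm_mul, Complex.norm_exp_ofReal_mul_I, mul_one, Complex.norm_real, Real.norm_eq_abs,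
        Real.abs_exp]
      apply Real.exp_le_exp.mpr
      have h1 : h (@inner ℝ E _ x e) ≤ H := (le_abs_self _).trans (hH _ (hKΩ x hx))
      exact mul_le_mul_of_nonneg_left (mul_le_mul_of_nonneg_left h1 hβ.le) hτ0.le
  have hFzero : ∫ x in Ω, Fc x = 0 := by
    have h1 : ∫ x in Ω, Fc x = ∫ x in Ω, (Complex.exp (-((τ : ℂ) * Complex.I)
        * ((β * h (@inner ℝ E _ x e) : ℝ) : ℂ) * Complex.I)
        * Complex.exp ((@inner ℝ E _ (α • e + β • f) x : ℝ) * Complex.I))
        * Complex.exp (-((α * x0 : ℝ) : ℂ) * Complex.I) := by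
      refine integral_congr_ae (Filter.Eventually.of_forall fun x => ?_)
      simp only [hFc]
      rw [Complex.ofReal_exp, ← Complex.exp_add, ← Complex.exp_add, ← Complex.exp_add]
      congr 1
      push_cast
      have hI : Complex.I * Complex.I = -1 := Complex.I_mul_I
      linear_combination ((τ : ℂ) * (β * (h (@inner ℝ E _ x e) : ℂ))) * hI
    rw [h1, integral_mul_const, hzero, zero_mul]
  have hre : ∫ x in Ω, (Fc x).re = 0 := by
    have := Complex.reCLM.integral_comp_comm hFint
    rw [hFzero] at this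
    simpa using this
  -- lower bound of the real part
  set B : E → ℝ := fun x => U.indicator (fun _ => 1 / 2 * Real.exp (τ * (β * (h x0 - δ / 2)))) x
    - Real.exp (τ * (β * (h x0 - δ))) with hB
  have hBle : ∀ x ∈ Ω, B x ≤ (Fc x).re := by
    intro x hx
    have hFre : (Fc x).re = Real.exp (τ * (β * h (@inner ℝ E _ x e)))
        * Real.cos (@inner ℝ E _ (α • e + β • f) x - α * x0) := by
      simp only [hFc]
      rw [Complex.re_ofReal_mul, Complex.exp_ofReal_mul_I_re]
    rw [hFre]
    have hph : @inner ℝ E _ (α • e + β • f) x - α * x0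
        = α * (@inner ℝ E _ x e - x0) + β * @inner ℝ E _ f x := by
      rw [inner_add_left, inner_smul_left, inner_smul_left, real_inner_comm e x]
      simp only [conj_trivial]
      ring
    rcases lt_or_ge |@inner ℝ E _ x e - x0| ε with hnear | hfar
    · -- near
      have h1 : |@inner ℝ E _ (α • e + β • f) x - α * x0| ≤ 1 := by
        rw [hph]
        calc |α * (@inner ℝ E _ x e - x0) + β * @inner ℝ E _ f x|
            ≤ |α * (@inner ℝ E _ x e - x0)| + |β * @inner ℝ E _ f x| := abs_add_le _ _
          _ = α * |@inner ℝ E _ x e - x0| + β * |@inner ℝ E _ f x| := by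
              rw [abs_mul, abs_mul, abs_of_nonneg hα0, abs_of_pos hβ]
          _ ≤ r * ε + β * ρ := by
              apply add_le_add
              · exact mul_le_mul hαr hnear.le (abs_nonneg _) hr0
              · exact mul_le_mul_of_nonneg_left (hρ x hx) hβ.le
          _ ≤ 1 := by linarith
      have h2 : (1 : ℝ) / 2 ≤ Real.cos (@inner ℝ E _ (α • e + β • f) x - α * x0) := by
        have h3 := Real.one_sub_sq_div_two_le_cos
          (x := @inner ℝ E _ (α • e + β • f) x - α * x0)
        have h4 : (@inner ℝ E _ (α • e + β • f) x - α * x0) ^ 2 ≤ 1 := by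
          rw [← sq_abs]
          exact pow_le_one₀ (abs_nonneg _) h1
        linarith
      by_cases hxU : x ∈ U
      · simp only [hB]
        rw [Set.indicator_of_mem hxU]
        have h5 : Real.exp (τ * (β * (h x0 - δ / 2))) ≤ Real.exp (τ * (β * h (@inner ℝ E _ x e))) := by
          apply Real.exp_le_exp.mpr
          exact mul_le_mul_of_nonneg_left (mul_le_mul_of_nonneg_left hxU.2.2.le hβ.le) hτ0.le
        have h6 : 1 / 2 * Real.exp (τ * (β * (h x0 - δ / 2)))
            ≤ Real.exp (τ * (β * h (@inner ℝ E _ x e)))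
              * Real.cos (@inner ℝ E _ (α • e + β • f) x - α * x0) := by
          rw [mul_comm (Real.exp (τ * (β * h (@inner ℝ E _ x e))))]
          exact mul_le_mul h2 h5 (Real.exp_pos _).le (by linarith)
        have h7 := Real.exp_pos (τ * (β * (h x0 - δ)))
        linarith
      · simp only [hB]
        rw [Set.indicator_of_notMem hxU]
        have h7 := Real.exp_pos (τ * (β * (h x0 - δ)))
        have h8 : 0 ≤ Real.exp (τ * (β * h (@inner ℝ E _ x e)))
              * Real.cos (@inner ℝ E _ (α • e + β • f) x - α * x0) :=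
          mul_nonneg (Real.exp_pos _).le (by linarith)
        linarith
    · -- far
      have hxU : x ∉ U := fun hxU => absurd hxU.2.1 (not_lt.mpr hfar)
      simp only [hB]
      rw [Set.indicator_of_notMem hxU, zero_sub]
      have h5 : h (@inner ℝ E _ x e) ≤ h x0 - δ := hδ _ (hKΩ x hx) hfar
      have h6 : Real.exp (τ * (β * h (@inner ℝ E _ x e))) ≤ Real.exp (τ * (β * (h x0 - δ))) := by
        apply Real.exp_le_exp.mpr
        exact mul_le_mul_of_nonneg_left (mul_le_mul_of_nonneg_left h5 hβ.le) hτ0.le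
      have h7 := Real.neg_one_le_cos (@inner ℝ E _ (α • e + β • f) x - α * x0)
      have h8 := Real.exp_pos (τ * (β * h (@inner ℝ E _ x e)))
      nlinarith
  have hBint : Integrable B (volume.restrict Ω) :=
    ((integrable_const _).indicator hUm).sub (integrable_const _)
  have hle : ∫ x in Ω, B x ≤ ∫ x in Ω, (Fc x).re := by
    refine integral_mono_ae hBint hFint.re ?_
    exact (ae_restrict_iff' hm).mpr (Filter.Eventually.of_forall hBle)
  have hBval : ∫ x in Ω, B x = 1 / 2 * Real.exp (τ * (β * (h x0 - δ / 2))) * m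
      - Real.exp (τ * (β * (h x0 - δ))) * V := by
    simp only [hB]
    rw [integral_sub ((integrable_const _).indicator hUm) (integrable_const _),
      integral_indicator_const _ hUm, integral_const]
    simp only [smul_eq_mul, hmdef, hV]
    ring
  rw [hre, hBval] at hle
  have hs : Real.exp (τ * (β * (h x0 - δ / 2)))
      = Real.exp (τ * (β * (h x0 - δ))) * Real.exp (τ * β * (δ / 2)) := by
    rw [← Real.exp_add]
    congr 1
    ring
  rw [hs] at hle
  have hp := Real.exp_pos (τ * (β * (h x0 - δ)))
  have : Real.exp (τ * (β * (h x0 - δ))) * (1 / 2 * Real.exp (τ * β * (δ / 2)) * m - V) ≤ 0 := by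
    linarith
  have h9 : 0 < Real.exp (τ * (β * (h x0 - δ))) * (1 / 2 * Real.exp (τ * β * (δ / 2)) * m - V) :=
    mul_pos hp (by linarith)
  linarith

end Pool.Agent.W757.SF
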