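import Mathlib
import Pool.Agent.W757.SF.Main

set_option autoImplicit false

open MeasureTheory

namespace Pool.Agent.W757.SF

theorem part_one {Ω : Set E} (ho : IsOpen Ω) (hne : Ω.Nonempty) (a : E) (ρ : ℝ)
    (hρ : Ω ⊆ Metric.closedBall a ρ) (R : ℝ) (hR : 0 < R) :
    (exceptional Ω R).Finite ∧ ((exceptional Ω R).ncard : ℝ) ≤ (2 * ρ * R) ^ 3 := by
  have hb : Bornology.IsBounded Ω := Metric.isBounded_closedBall.subset hρ
  obtain ⟨f1, c1⟩ := rayZeros_finite ho hne a ρ hρ e1 norm_e1.le R hR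
  obtain ⟨f2, c2⟩ := rayZeros_finite ho hne a ρ hρ e2 norm_e2.le R hR
  obtain ⟨f3, c3⟩ := rayZeros_finite ho hne a ρ hρ e3 norm_e3.le R hR
  have hsub : exceptional Ω R ⊆
      recover '' (rayZeros Ω e1 R ×ˢ rayZeros Ω e2 R ×ˢ rayZeros Ω e3 R) := by
    rintro N ⟨A, lam, hlam, hA, hs, rfl⟩
    exact gram_mem hb ho.measurableSet A hlam hs R hR hA
  have hpf : (rayZeros Ω e1 R ×ˢ rayZeros Ω e2 R ×ˢ rayZeros Ω e3 R).Finite :=
    f1.prod (f2.prod f3)
  refine ⟨(hpf.image _).subset hsub, ?_⟩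
  have h1 : (exceptional Ω R).ncard
      ≤ (rayZeros Ω e1 R ×ˢ rayZeros Ω e2 R ×ˢ rayZeros Ω e3 R).ncard :=
    (Set.ncard_le_ncard hsub (hpf.image _)).trans (Set.ncard_image_le hpf)
  rw [Set.ncard_prod, Set.ncard_prod] at h1
  have h2 : ((exceptional Ω R).ncard : ℝ) ≤ ((rayZeros Ω e1 R).ncard : ℝ)
      * (((rayZeros Ω e2 R).ncard : ℝ) * ((rayZeros Ω e3 R).ncard : ℝ)) := by
    exact_mod_cast h1
  have hρ0 : 0 ≤ 2 * ρ * R := (Nat.cast_nonneg _).trans c1
  calc ((exceptional Ω R).ncard : ℝ) ≤ ((rayZeros Ω e1 R).ncard : ℝ)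
      * (((rayZeros Ω e2 R).ncard : ℝ) * ((rayZeros Ω e3 R).ncard : ℝ)) := h2
    _ ≤ (2 * ρ * R) * ((2 * ρ * R) * (2 * ρ * R)) := by
        apply mul_le_mul c1 _ (by positivity) hρ0
        exact mul_le_mul c2 c3 (Nat.cast_nonneg _) hρ0
    _ = (2 * ρ * R) ^ 3 := by ring

theorem part_two {Ω : Set E} (ho : IsOpen Ω) (hne : Ω.Nonempty) (a : E) (ρ : ℝ)
    (hρ : Ω ⊆ Metric.closedBall a ρ) :
    {σ : ℝ × ℝ | ∃ (A : E ≃L[ℝ] E) (lam : ℝ), 0 < lam ∧ Solvable (A '' Ω) lam ∧
      shape A = σ}.Countable := by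
  have hcount : (⋃ n : ℕ, (fun N : ℝ × ℝ × ℝ => (N.2.1 / N.1, N.2.2 / N.1)) ''
      exceptional Ω ((n : ℝ) + 1)).Countable :=
    Set.countable_iUnion fun n =>
      ((part_one ho hne a ρ hρ ((n : ℝ) + 1) (by positivity)).1.image _).countable
  refine hcount.mono ?_
  rintro σ ⟨A, lam, hlam, hs, rfl⟩
  obtain ⟨n, hn⟩ := exists_nat_ge (lam * ‖(A : E →L[ℝ] E)‖ ^ 2)
  refine Set.mem_iUnion.mpr ⟨n, gram A lam, ⟨A, lam, hlam, ?_, hs, rfl⟩, ?_⟩
  · have hn0 : (0 : ℝ) ≤ n := Nat.cast_nonneg n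
    nlinarith
  · unfold gram shape
    simp only
    rw [mul_div_mul_left _ _ hlam.ne', mul_div_mul_left _ _ hlam.ne']

theorem part_three_max {Ω : Set E} (ho : IsOpen Ω) (hne : Ω.Nonempty) (a : E) (ρ : ℝ)
    (hρ : Ω ⊆ Metric.closedBall a ρ) (e f : E) (he : ‖e‖ = 1) (hf : ‖f‖ = 1)
    (hef : @inner ℝ E _ e f = 0) (h : ℝ → ℝ) (hc : Continuous h) (x0 : ℝ)
    (hx0 : x0 ∈ closure ((fun x : E => @inner ℝ E _ x e) '' Ω))
    (hmax : ∀ y ∈ closure ((fun x : E => @inner ℝ E _ x e) '' Ω), y ≠ x0 → h y < h x0) :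
    {t : ℝ | ∃ lam : ℝ, 0 < lam ∧ Solvable (shear e f h t '' Ω) lam}.Countable := by
  have hb : Bornology.IsBounded Ω := Metric.isBounded_closedBall.subset hρ
  have hm : MeasurableSet Ω := ho.measurableSet
  have hfin : IsFiniteMeasure (volume.restrict Ω) := by
    constructor
    rw [Measure.restrict_apply_univ]
    exact hb.measure_lt_top
  obtain ⟨D, hD⟩ := hb.exists_norm_le
  set M : ℝ := |D| + 1 with hM
  have hM0 : 0 < M := by positivity
  have hfM : ∀ x ∈ Ω, |@inner ℝ E _ f x| ≤ M := by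
    intro x hx
    have h1 : |@inner ℝ E _ f x| ≤ ‖f‖ * ‖x‖ := abs_real_inner_le_norm _ _
    rw [hf, one_mul] at h1
    have := hD x hx
    have h2 := le_abs_self D
    linarith
  -- frequencies
  have hparam : ∀ r : ℝ, 0 < r → ∃ α β : ℝ, 0 ≤ α ∧ α ≤ r ∧ 0 < β ∧ β * M ≤ 1 / 2 ∧
      α ^ 2 + β ^ 2 = r ^ 2 := by
    intro r hr
    set β : ℝ := min r (1 / (2 * M)) with hβ
    have hβ0 : 0 < β := lt_min hr (by positivity)
    have hβr : β ≤ r := min_le_left _ _
    have hβM : β ≤ 1 / (2 * M) := min_le_right _ _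
    have hnn : 0 ≤ r ^ 2 - β ^ 2 := by nlinarith
    refine ⟨Real.sqrt (r ^ 2 - β ^ 2), β, Real.sqrt_nonneg _, ?_, hβ0, ?_, ?_⟩
    · rw [Real.sqrt_le_left hr.le]; nlinarith
    · calc β * M ≤ 1 / (2 * M) * M := mul_le_mul_of_nonneg_right hβM hM0.le
        _ = 1 / 2 := by field_simp
    · rw [Real.sq_sqrt hnn]; ring
  choose! α β hα0 hαr hβ0 hβM hαβ using hparam
  set g : ℝ → ℂ → ℂ := fun r z => ∫ x in Ω,
    Complex.exp (z * ((β r * h (@inner ℝ E _ x e) : ℝ) : ℂ) * Complex.I)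
      * Complex.exp ((@inner ℝ E _ (α r • e + β r • f) x : ℝ) * Complex.I) with hg
  -- profile bounded
  have hKc : IsCompact (closure ((fun x : E => @inner ℝ E _ x e) '' Ω)) := by
    have hbd : Bornology.IsBounded ((fun x : E => @inner ℝ E _ x e) '' Ω) := by
      have hl : (fun x : E => @inner ℝ E _ x e) = fun x => (innerSL ℝ e) x := by
        funext x; rw [innerSL_apply_apply, real_inner_comm]
      rw [hl]
      exact (innerSL ℝ e).lipschitz.isBounded_image hb
    exact Metric.isCompact_of_isClosed_isBounded isClosed_closure hbd.closure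
  obtain ⟨H, hH⟩ := hKc.exists_bound_of_continuousOn hc.continuousOn
  have hinc : Continuous (fun x : E => @inner ℝ E _ x e) := continuous_id.inner continuous_const
  have hgd : ∀ r, Differentiable ℂ (g r) := by
    intro r
    refine ent_differentiable (volume.restrict Ω) (fun x => β r * h (@inner ℝ E _ x e))
      (fun x => Complex.exp ((@inner ℝ E _ (α r • e + β r • f) x : ℝ) * Complex.I))
      ((continuous_const.mul (hc.comp hinc)).aestronglyMeasurable) (|β r| * H) ?_ ?_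
    · refine (ae_restrict_iff' hm).mpr (Filter.Eventually.of_forall fun x hx => ?_)
      rw [abs_mul]
      exact mul_le_mul_of_nonneg_left (hH _ (subset_closure (Set.mem_image_of_mem _ hx)))
        (abs_nonneg _)
    · refine (integrable_const (1 : ℝ)).mono' ?_ (Filter.Eventually.of_forall fun x => ?_)
      · have h2 : Continuous (fun x : E => @inner ℝ E _ (α r • e + β r • f) x) :=
          continuous_const.inner continuous_id
        have : Continuous (fun x : E =>
          Complex.exp ((@inner ℝ E _ (α r • e + β r • f) x : ℝ) * Complex.I)) := by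
          fun_prop
        exact this.aestronglyMeasurable
      · rw [Complex.norm_exp_ofReal_mul_I]
  have hgne : ∀ r, 0 < r → ∃ z, g r z ≠ 0 := by
    intro r hr
    exact profile_ne_zero ho hb e f h hc x0 hx0 hmax (α r) (β r) M r (hα0 r hr) (hαr r hr)
      (hβ0 r hr) (hβM r hr) hfM
  -- countable set of radii
  set Z : Set ℝ := ⋃ n : ℕ, rayZeros Ω e ((n : ℝ) + 1) with hZ
  have hZc : Z.Countable := Set.countable_iUnion fun n =>
    (rayZeros_finite ho hne a ρ hρ e he.le ((n : ℝ) + 1) (by positivity)).1.countable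
  have hcount : (⋃ r ∈ Z, {t : ℝ | g r (t : ℂ) = 0}).Countable := by
    refine hZc.biUnion fun r hr => ?_
    obtain ⟨n, hn⟩ := Set.mem_iUnion.mp hr
    obtain ⟨z, hz⟩ := hgne r hn.1
    exact countable_real_zeros (g r) (hgd r) z hz
  refine hcount.mono ?_
  rintro t ⟨lam, hlam, hs⟩
  -- transport to Ω
  have hTm : MeasurableEmbedding (shear e f h t) :=
    (shearH e f hef h hc t).measurableEmbedding
  have hmp := shear_mp e f he hf hef h hc t
  have hb' : Bornology.IsBounded (shear e f h t '' Ω) := by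
    have h1 : IsCompact (closure Ω) :=
      Metric.isCompact_of_isClosed_isBounded isClosed_closure hb.closure
    have h2 : IsCompact (shear e f h t '' closure Ω) :=
      h1.image (shearH e f hef h hc t).continuous
    exact h2.isBounded.subset (Set.image_mono subset_closure)
  have hm' : MeasurableSet (shear e f h t '' Ω) := hTm.measurableSet_image.mpr hm
  have hfz : ∀ ξ : E, ‖ξ‖ ^ 2 = lam → ∫ x in Ω,
      Complex.exp ((@inner ℝ E _ ξ (shear e f h t x) : ℝ) * Complex.I) = 0 := by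
    intro ξ hξ
    have h1 := fourier_zero hb' hm' hlam hs ξ hξ
    rw [hmp.setIntegral_image_emb hTm] at h1
    exact h1
  have hin : ∀ (ξ x : E), @inner ℝ E _ ξ (shear e f h t x)
      = @inner ℝ E _ ξ x + t * h (@inner ℝ E _ x e) * @inner ℝ E _ ξ f := by
    intro ξ x
    rw [shear, inner_add_right, inner_smul_right]
  set r : ℝ := Real.sqrt lam with hr
  have hr0 : 0 < r := Real.sqrt_pos.mpr hlam
  have hr2 : r ^ 2 = lam := Real.sq_sqrt hlam.le
  have hfe : @inner ℝ E _ f e = 0 := by rw [real_inner_comm]; exact hef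
  -- r is a zero along e
  have hrZ : r ∈ Z := by
    obtain ⟨n, hn⟩ := exists_nat_ge r
    refine Set.mem_iUnion.mpr ⟨n, hr0, by linarith, ?_⟩
    have h1 := hfz (r • e) (by rw [norm_smul, he, mul_one, Real.norm_eq_abs, sq_abs, hr2])
    rw [← h1]
    refine integral_congr_ae (Filter.Eventually.of_forall fun x => ?_)
    beta_reduce
    rw [hin, inner_smul_left, inner_smul_left, hef]
    simp
  refine Set.mem_biUnion hrZ ?_
  show g r (t : ℂ) = 0
  have hξ : ‖α r • e + β r • f‖ ^ 2 = lam := by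
    rw [← real_inner_self_eq_norm_sq, inner_add_left, inner_add_right, inner_add_right,
      inner_smul_left, inner_smul_left, inner_smul_right, inner_smul_left, inner_smul_right,
      inner_smul_left, inner_smul_right, inner_smul_right, hef, hfe,
      real_inner_self_eq_norm_sq, real_inner_self_eq_norm_sq, he, hf]
    have := hαβ r hr0
    rw [hr2] at this
    simp only [conj_trivial]
    linarith
  have h2 := hfz _ hξ
  simp only [hg]
  rw [← h2]
  refine integral_congr_ae (Filter.Eventually.of_forall fun x => ?_)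
  beta_reduce
  rw [← Complex.exp_add, hin]
  congr 1
  have h3 : @inner ℝ E _ (α r • e + β r • f) f = β r := by
    rw [inner_add_left, inner_smul_left, inner_smul_left, hef, real_inner_self_eq_norm_sq, hf]
    simp
  rw [h3]
  push_cast
  ring

theorem part_three {Ω : Set E} (ho : IsOpen Ω) (hne : Ω.Nonempty) (a : E) (ρ : ℝ)
    (hρ : Ω ⊆ Metric.closedBall a ρ) (e f : E) (he : ‖e‖ = 1) (hf : ‖f‖ = 1)
    (hef : @inner ℝ E _ e f = 0) (h : ℝ → ℝ) (hc : Continuous h)
    (hext : ∃ x0 ∈ closure ((fun x : E => @inner ℝ E _ x e) '' Ω),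
      (∀ y ∈ closure ((fun x : E => @inner ℝ E _ x e) '' Ω), y ≠ x0 → h y < h x0) ∨
      (∀ y ∈ closure ((fun x : E => @inner ℝ E _ x e) '' Ω), y ≠ x0 → h x0 < h y)) :
    {t : ℝ | ∃ lam : ℝ, 0 < lam ∧ Solvable (shear e f h t '' Ω) lam}.Countable := by
  obtain ⟨x0, hx0, hmm⟩ := hext
  rcases hmm with hmax | hmin
  · exact part_three_max ho hne a ρ hρ e f he hf hef h hc x0 hx0 hmax
  · have h1 := part_three_max ho hne a ρ hρ e f he hf hef (fun y => -h y) hc.neg x0 hx0
      (fun y hy hyx => neg_lt_neg (hmin y hy hyx))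
    have h2 : {t : ℝ | ∃ lam : ℝ, 0 < lam ∧ Solvable (shear e f h t '' Ω) lam}
        ⊆ (fun t : ℝ => -t) '' {t : ℝ | ∃ lam : ℝ, 0 < lam ∧
          Solvable (shear e f (fun y => -h y) t '' Ω) lam} := by
      rintro t ⟨lam, hlam, hs⟩
      refine ⟨-t, ⟨lam, hlam, ?_⟩, neg_neg t⟩
      have h3 : shear e f (fun y => -h y) (-t) = shear e f h t := by
        funext x
        unfold shear
        rw [neg_mul_neg]
      rw [h3]
      exact hs
    exact (h1.image _).mono h2

end Pool.Agent.W757.SF
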